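import Pool.Agent.Lib.MP_1d7982_pr.Main

open MeasureTheory ProbabilityTheory
open scoped NNReal ENNReal

namespace Pool.Agent.Results.MP_1d7982_pr.HalfExponent

open Pool.Agent.Lib.MP_1d7982_pr

universe u

/-- For stationary Brownian motion on `ℝ³/ℤ³`, `E[W^{1/2}(μ_T)] ≥ c √T log T` for all large `T`,
with universal `c > 0`; hence `E[W^{1/2}(μ_T)] / √(T log T)` tends to infinity. -/
theorem result :
    (∃ c : ℝ, 0 < c ∧ ∃ T₀ : ℝ, ∀ (Ω : Type u) [MeasurableSpace Ω] (P : Measure Ω)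
      [IsProbabilityMeasure P] (B : ℝ≥0 → Ω → T3), IsStationaryBM B P → ∀ T : ℝ, T₀ ≤ T →
        ENNReal.ofReal (c * Real.sqrt T * Real.log T) ≤
          ∫⁻ ω, torusCost (1 / 2) (occupation B T ω) ∂P) ∧
    (∀ c : ℝ, ∃ T₀ : ℝ, ∀ (Ω : Type u) [MeasurableSpace Ω] (P : Measure Ω)
      [IsProbabilityMeasure P] (B : ℝ≥0 → Ω → T3), IsStationaryBM B P → ∀ T : ℝ, T₀ ≤ T →
        ENNReal.ofReal (c * Real.sqrt (T * Real.log T)) <
          ∫⁻ ω, torusCost (1 / 2) (occupation B T ω) ∂P) := by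
  have key : ∃ c : ℝ, 0 < c ∧ ∃ T₀ : ℝ, ∀ (Ω : Type u) [MeasurableSpace Ω] (P : Measure Ω)
      [IsProbabilityMeasure P] (B : ℝ≥0 → Ω → T3), IsStationaryBM B P → ∀ T : ℝ, T₀ ≤ T →
        ENNReal.ofReal (c * Real.sqrt T * Real.log T) ≤
          ∫⁻ ω, torusCost (1 / 2) (occupation B T ω) ∂P := by
    refine ⟨1 / 7508800, by norm_num, 2 ^ 160, ?_⟩
    intro Ω _ P _ B hB T hT
    have hT0 : 0 < T := lt_of_lt_of_le (by positivity) hT
    have hlog2 : 0 < Real.log 2 := Real.log_pos (by norm_num)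
    have hL : 160 * Real.log 2 ≤ Real.log T := by
      have := Real.log_le_log (by positivity) hT
      rw [Real.log_pow] at this
      exact_mod_cast this
    set x : ℝ := Real.log T / Real.log 2 with hx
    have hx1 : 160 ≤ x := by rw [hx, le_div_iff₀ hlog2]; exact hL
    have hxT : x * Real.log 2 = Real.log T := by rw [hx]; field_simp
    set K : ℕ := ⌊(x - 60) / 20⌋₊ with hK
    have hK1 : (K : ℝ) ≤ (x - 60) / 20 := Nat.floor_le (by linarith)
    have hK2 : (x - 60) / 20 < K + 1 := Nat.lt_floor_add_one _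
    have hpow : (2:ℝ) ^ (60 + 20 * K) ≤ T := by
      rw [← Real.log_le_log_iff (by positivity) hT0, Real.log_pow, ← hxT]
      apply mul_le_mul_of_nonneg_right _ hlog2.le
      push_cast
      linarith
    refine le_trans (ENNReal.ofReal_le_ofReal ?_) (main_bound hB hpow)
    have h1 : Real.log T ≤ 40 * K := by
      have h2 : Real.log T ≤ x := by
        rw [← hxT]
        have h3 : Real.log 2 ≤ 1 := by
          have := Real.log_two_lt_d9
          linarith
        nlinarith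
      linarith
    have h2 : 0 ≤ Real.sqrt T := Real.sqrt_nonneg T
    have h3 : Real.sqrt T * Real.log T ≤ Real.sqrt T * (40 * K) := mul_le_mul_of_nonneg_left h1 h2
    have h4 : 1 / 7508800 * Real.sqrt T * Real.log T = (Real.sqrt T * Real.log T) / 7508800 := by ring
    have h5 : (K:ℝ) * Real.sqrt T / 187720 = (Real.sqrt T * (40 * K)) / 7508800 := by ring
    rw [h4, h5]
    exact div_le_div_of_nonneg_right h3 (by norm_num)
  refine ⟨key, ?_⟩
  intro c
  obtain ⟨c₀, hc₀, T₀, h⟩ := key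
  -- `c √(T log T) < c₀ √T log T` as soon as `log T > (c / c₀)²`
  refine ⟨max T₀ (Real.exp ((c / c₀) ^ 2 + 1)), ?_⟩
  intro Ω _ P _ B hB T hT
  have hT1 : T₀ ≤ T := (le_max_left _ _).trans hT
  have hT2 : Real.exp ((c / c₀) ^ 2 + 1) ≤ T := (le_max_right _ _).trans hT
  have hT0 : 0 < T := lt_of_lt_of_le (Real.exp_pos _) hT2
  have hlog : (c / c₀) ^ 2 + 1 ≤ Real.log T := by
    rw [Real.le_log_iff_exp_le hT0]; exact hT2
  have hlog0 : 0 < Real.log T := by nlinarith [sq_nonneg (c / c₀)]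
  refine lt_of_lt_of_le ?_ (h Ω P B hB T hT1)
  have hs : 0 < Real.sqrt T := Real.sqrt_pos.mpr hT0
  rw [ENNReal.ofReal_lt_ofReal_iff (by positivity), Real.sqrt_mul hT0.le]
  have h1 : c < c₀ * Real.sqrt (Real.log T) := by
    have h2 : |c / c₀| < Real.sqrt (Real.log T) := by
      apply Real.lt_sqrt_of_sq_lt
      rw [sq_abs]
      linarith
    have h3 : c / c₀ < Real.sqrt (Real.log T) := lt_of_le_of_lt (le_abs_self _) h2
    rw [div_lt_iff₀ hc₀] at h3
    linarith
  have h4 : Real.log T = Real.sqrt (Real.log T) * Real.sqrt (Real.log T) :=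
    (Real.mul_self_sqrt hlog0.le).symm
  have h5 : 0 < Real.sqrt (Real.log T) := Real.sqrt_pos.mpr hlog0
  calc c * (Real.sqrt T * Real.sqrt (Real.log T))
      < (c₀ * Real.sqrt (Real.log T)) * (Real.sqrt T * Real.sqrt (Real.log T)) :=
        mul_lt_mul_of_pos_right h1 (by positivity)
    _ = c₀ * Real.sqrt T * (Real.sqrt (Real.log T) * Real.sqrt (Real.log T)) := by ring
    _ = c₀ * Real.sqrt T * Real.log T := by rw [← h4]

end Pool.Agent.Results.MP_1d7982_pr.HalfExponent
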